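import Mathlib

/-!
# Randić index plus independence number (MP_e31007_co)

The inequality `R(G) + α(G) ≤ n - 1 + √(n - 1)` fails for every order `n ≥ 11`: the complete
bipartite graph `K_{2,n-2}` has `R = √(2(n-2))` and `α = n - 2`, and `√(2(n-2)) > 1 + √(n-1)`.
-/

set_option autoImplicit false

open Finset

namespace Pool.Agent.Results.MP_e31007_co.BipartiteCounterexample

open Classical in
/-- The Randić index: the sum over the edges `uv` of `1 / √(d_u d_v)`. -/
noncomputable def randic {V : Type} [Fintype V] (G : SimpleGraph V) : ℝ :=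
  ∑ e ∈ G.edgeFinset, 1 / Real.sqrt
    (Sym2.lift ⟨fun u v => (G.degree u : ℝ) * (G.degree v : ℝ), fun _ _ => mul_comm _ _⟩ e)

section
variable (m : ℕ)

open Classical in
theorem deg_inl (a : Fin 2) : (completeBipartiteGraph (Fin 2) (Fin m)).degree (Sum.inl a) = m := by
  rw [← SimpleGraph.card_neighborFinset_eq_degree]
  have : (completeBipartiteGraph (Fin 2) (Fin m)).neighborFinset (Sum.inl a) =
      (univ : Finset (Fin m)).map ⟨Sum.inr, Sum.inr_injective⟩ := by
    ext v
    rw [SimpleGraph.mem_neighborFinset, mem_map]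
    rcases v with v | v <;> simp
  rw [this, card_map, card_univ, Fintype.card_fin]

open Classical in
theorem deg_inr (a : Fin m) : (completeBipartiteGraph (Fin 2) (Fin m)).degree (Sum.inr a) = 2 := by
  rw [← SimpleGraph.card_neighborFinset_eq_degree]
  have : (completeBipartiteGraph (Fin 2) (Fin m)).neighborFinset (Sum.inr a) =
      (univ : Finset (Fin 2)).map ⟨Sum.inl, Sum.inl_injective⟩ := by
    ext v
    rw [SimpleGraph.mem_neighborFinset, mem_map]
    rcases v with v | v <;> simp
  rw [this, card_map, card_univ, Fintype.card_fin]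

open Classical in
theorem card_edge : (completeBipartiteGraph (Fin 2) (Fin m)).edgeFinset.card = 2 * m := by
  have h := (completeBipartiteGraph (Fin 2) (Fin m)).sum_degrees_eq_twice_card_edges
  rw [Fintype.sum_sum_type] at h
  simp only [deg_inl, deg_inr, sum_const, card_univ, Fintype.card_fin, smul_eq_mul] at h
  omega

theorem randic_eq (hm : 0 < m) :
    randic (completeBipartiteGraph (Fin 2) (Fin m)) = Real.sqrt (2 * m) := by
  classical
  unfold randic
  have h : ∀ e ∈ (completeBipartiteGraph (Fin 2) (Fin m)).edgeFinset, 1 / Real.sqrt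
    (Sym2.lift ⟨fun u v => ((completeBipartiteGraph (Fin 2) (Fin m)).degree u : ℝ) *
      ((completeBipartiteGraph (Fin 2) (Fin m)).degree v : ℝ), fun _ _ => mul_comm _ _⟩ e) =
      1 / Real.sqrt (2 * m) := by
    intro e he
    induction e using Sym2.ind with
    | _ u v =>
      rw [SimpleGraph.mem_edgeFinset, SimpleGraph.mem_edgeSet] at he
      rw [Sym2.lift_mk]
      rcases u with u | u <;> rcases v with v | v
      · simp at he
      · simp only [deg_inl, deg_inr]; push_cast; rw [mul_comm]
      · simp only [deg_inl, deg_inr]; push_cast; rfl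
      · simp at he
  rw [sum_congr rfl h, sum_const, card_edge, nsmul_eq_mul]
  have h2 : (0 : ℝ) < 2 * m := by positivity
  have h3 : Real.sqrt (2 * m) ≠ 0 := (Real.sqrt_pos.2 h2).ne'
  push_cast
  field_simp
  exact (Real.sq_sqrt h2.le).symm

theorem indep : m ≤ (completeBipartiteGraph (Fin 2) (Fin m)).indepNum := by
  classical
  have h : (completeBipartiteGraph (Fin 2) (Fin m)).IsIndepSet
      ((((univ : Finset (Fin m)).map ⟨Sum.inr, Sum.inr_injective⟩ : Finset (Fin 2 ⊕ Fin m))) :
        Set (Fin 2 ⊕ Fin m)) := by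
    intro x hx y hy _
    simp only [coe_map, Set.mem_image, coe_univ, Set.mem_univ, true_and] at hx hy
    obtain ⟨a, rfl⟩ := hx
    obtain ⟨b, rfl⟩ := hy
    simp
  have h2 := h.card_le_indepNum
  rwa [card_map, card_univ, Fintype.card_fin] at h2

theorem conn (hm : 0 < m) : (completeBipartiteGraph (Fin 2) (Fin m)).Connected := by
  have : Nonempty (Fin m) := ⟨⟨0, hm⟩⟩
  refine ⟨?_⟩
  have key : ∀ v : Fin 2 ⊕ Fin m, (completeBipartiteGraph (Fin 2) (Fin m)).Reachable
      (Sum.inr ⟨0, hm⟩) v := by
    intro v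
    rcases v with v | v
    · exact SimpleGraph.Adj.reachable (by simp)
    · have h1 : (completeBipartiteGraph (Fin 2) (Fin m)).Adj (Sum.inr ⟨0, hm⟩) (Sum.inl 0) := by
        simp
      have h2 : (completeBipartiteGraph (Fin 2) (Fin m)).Adj (Sum.inl 0) (Sum.inr v) := by simp
      exact h1.reachable.trans h2.reachable
  intro u v
  exact (key u).symm.trans (key v)

end

/-- **For every `n ≥ 11` there is a connected graph on `n` vertices with
`R(G) + α(G) > n - 1 + √(n - 1)`.** -/
theorem result (n : ℕ) (hn : 11 ≤ n) :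
    ∃ (V : Type) (_ : Fintype V) (G : SimpleGraph V), Fintype.card V = n ∧ G.Connected ∧
      (n : ℝ) - 1 + Real.sqrt ((n : ℝ) - 1) < randic G + (G.indepNum : ℝ) := by
  obtain ⟨m, rfl⟩ : ∃ m, n = m + 2 := ⟨n - 2, by omega⟩
  have hm : 9 ≤ m := by omega
  refine ⟨Fin 2 ⊕ Fin m, inferInstance, completeBipartiteGraph (Fin 2) (Fin m), ?_,
    conn m (by omega), ?_⟩
  · simp [add_comm]
  · rw [randic_eq m (by omega)]
    have h1 : (m : ℝ) ≤ (completeBipartiteGraph (Fin 2) (Fin m)).indepNum := by
      exact_mod_cast indep m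
    have h2 : (9 : ℝ) ≤ m := by exact_mod_cast hm
    have h3 : 1 + Real.sqrt ((m : ℝ) + 1) < Real.sqrt (2 * m) := by
      apply Real.lt_sqrt_of_sq_lt
      have h4 : Real.sqrt ((m : ℝ) + 1) ^ 2 = m + 1 := Real.sq_sqrt (by linarith)
      have h5 : Real.sqrt ((m : ℝ) + 1) < (m - 2) / 2 := by
        rw [Real.sqrt_lt' (by linarith)]
        nlinarith
      nlinarith
    have h6 : ((m + 2 : ℕ) : ℝ) - 1 = m + 1 := by push_cast; ring
    rw [h6]
    linarith

end Pool.Agent.Results.MP_e31007_co.BipartiteCounterexample
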